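import Pool.Agent.V11332.TailRatio

/-!
# MP_966169: exponential laws are not extremal for the tail ratio, but a constant exists

We answer Q1 and Q2 completely: the law with tail `P(X ≥ t) = exp(-t - t²/2)` satisfies
`R(z) < (2 log 2) z / med(X)` and `R(z) < 2 z / E X` for all `z > 0`; on the other hand
`R(z) ≥ (1/6) z / med(X)` for some `z > 0`, and `R(z) ≥ (1/12) z / E X` for some `z > 0`, for every
admissible law.
-/

namespace Pool.Agent.Results.MP_966169_pr.NotExtremal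

open MeasureTheory ProbabilityTheory Set Filter Topology
open scoped ENNReal
open Pool.Agent.V11332.TailRatio

/-! ### Analysis of the counterexample -/

/-- density -/
noncomputable def F (x : ℝ) : ℝ := (1 + x) * Real.exp (-(x + x ^ 2 / 2))

lemma F_cont : Continuous F := by unfold F; fun_prop

/-- `P(X ≥ t) = exp(-t-t²/2)` -/
noncomputable def μ0 : Measure ℝ :=
  (volume.restrict (Ioi 0)).withDensity fun x => ENNReal.ofReal (F x)

lemma exp_lim : Tendsto (fun x : ℝ => Real.exp (-(x + x ^ 2 / 2))) atTop (𝓝 0) := by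
  have h1 : Tendsto (fun x : ℝ => Real.exp (-x)) atTop (𝓝 0) := Real.tendsto_exp_neg_atTop_nhds_zero
  refine squeeze_zero (fun x => (Real.exp_pos _).le) (fun x => ?_) h1
  apply Real.exp_le_exp.2
  nlinarith [sq_nonneg x]

lemma hasDeriv_tail (x : ℝ) :
    HasDerivAt (fun x : ℝ => -Real.exp (-(x + x ^ 2 / 2))) (F x) x := by
  have h1 : HasDerivAt (fun x : ℝ => -(x + x ^ 2 / 2)) (-(1 + x)) x := by
    have := ((hasDerivAt_id x).add ((hasDerivAt_pow 2 x).div_const 2)).neg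
    refine this.congr_deriv ?_
    simp
  have h2 := h1.exp.neg
  refine h2.congr_deriv ?_
  unfold F; ring

lemma F_nonneg {x : ℝ} (hx : 0 ≤ x) : 0 ≤ F x := by unfold F; positivity

lemma F_int {t : ℝ} (ht : 0 ≤ t) :
    IntegrableOn F (Ioi t) ∧ ∫ x in Ioi t, F x = Real.exp (-(t + t ^ 2 / 2)) := by
  have hl : Tendsto (fun x : ℝ => -Real.exp (-(x + x ^ 2 / 2))) atTop (𝓝 0) := by
    simpa using exp_lim.neg
  have hpos : ∀ x ∈ Ioi t, 0 ≤ F x := fun x hx => F_nonneg (ht.trans (le_of_lt hx))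
  refine ⟨integrableOn_Ioi_deriv_of_nonneg' (fun x _ => hasDeriv_tail x) hpos hl, ?_⟩
  rw [integral_Ioi_of_hasDerivAt_of_nonneg' (fun x _ => hasDeriv_tail x) hpos hl]
  ring

lemma μ0_Ioi {t : ℝ} (ht : 0 ≤ t) : μ0 (Ioi t) = ENNReal.ofReal (Real.exp (-(t + t ^ 2 / 2))) := by
  unfold μ0
  rw [withDensity_apply _ measurableSet_Ioi, Measure.restrict_restrict measurableSet_Ioi,
    Ioi_inter_Ioi, max_eq_left ht, ← (F_int ht).2,
    ofReal_integral_eq_lintegral_ofReal (F_int ht).1]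
  filter_upwards [ae_restrict_mem measurableSet_Ioi] with x hx
  exact F_nonneg (ht.trans (le_of_lt hx))

lemma μ0_Iic0 : μ0 (Iic 0) = 0 := by
  unfold μ0
  rw [withDensity_apply _ measurableSet_Iic, Measure.restrict_restrict measurableSet_Iic]
  have : Iic (0 : ℝ) ∩ Ioi 0 = ∅ := by
    rw [inter_comm, Ioi_inter_Iic, Ioc_self]
  rw [this]; simp

instance μ0_prob : IsProbabilityMeasure μ0 := by
  constructor
  have h1 : (univ : Set ℝ) = Iic 0 ∪ Ioi 0 := Iic_union_Ioi.symm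
  rw [h1, measure_union (by
    rw [disjoint_iff_inter_eq_empty, inter_comm, Ioi_inter_Iic, Ioc_self]) measurableSet_Ioi,
    μ0_Iic0, μ0_Ioi le_rfl]
  simp

lemma μ0_ac : μ0 ≪ volume :=
  (withDensity_absolutelyContinuous _ _).trans
    (Measure.absolutelyContinuous_of_le Measure.restrict_le_self)

lemma μ0_Ici {t : ℝ} (ht : 0 ≤ t) : μ0 (Ici t) = ENNReal.ofReal (Real.exp (-(t + t ^ 2 / 2))) := by
  rw [← μ0_Ioi ht]
  refine le_antisymm ?_ (measure_mono Ioi_subset_Ici_self)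
  have : Ici t ⊆ Ioi t ∪ {t} := by
    intro x hx
    rcases lt_or_eq_of_le (show t ≤ x from hx) with h | h
    · exact Or.inl h
    · exact Or.inr h.symm
  calc μ0 (Ici t) ≤ μ0 (Ioi t ∪ {t}) := measure_mono this
    _ ≤ μ0 (Ioi t) + μ0 {t} := measure_union_le _ _
    _ = _ := by rw [μ0_ac (show volume {t} = 0 by simp), add_zero]

lemma μ0_adm : Adm μ0 where
  prob := inferInstance
  nonneg := measure_mono_null Iio_subset_Iic_self μ0_Iic0
  ac := μ0_ac
  unbdd := by
    intro t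
    have h1 : 0 < μ0 (Ioi (max t 0)) := by
      rw [μ0_Ioi (le_max_right _ _)]
      exact ENNReal.ofReal_pos.2 (Real.exp_pos _)
    exact h1.trans_le (measure_mono (Ioi_subset_Ioi (le_max_left _ _)))

lemma G0 {t : ℝ} (ht : 0 ≤ t) : μ0.real (Ici t) = Real.exp (-(t + t ^ 2 / 2)) := by
  rw [measureReal_def, μ0_Ici ht, ENNReal.toReal_ofReal (Real.exp_pos _).le]

/-! the error function -/

noncomputable def E (z : ℝ) : ℝ := ∫ v in (0 : ℝ)..z, Real.exp (-v ^ 2)

lemma E_deriv (z : ℝ) : HasDerivAt E (Real.exp (-z ^ 2)) z := by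
  have hc : Continuous fun v : ℝ => Real.exp (-v ^ 2) := by fun_prop
  exact intervalIntegral.integral_hasDerivAt_right (hc.intervalIntegrable _ _)
    hc.aestronglyMeasurable.stronglyMeasurableAtFilter hc.continuousAt

lemma expneg_deriv (z : ℝ) :
    HasDerivAt (fun z : ℝ => Real.exp (-z ^ 2)) (-(2 * z) * Real.exp (-z ^ 2)) z := by
  have := ((hasDerivAt_pow 2 z).neg).exp
  refine this.congr_deriv ?_
  simp; ring

lemma exp_upper {x : ℝ} (hx : 0 ≤ x) : Real.exp (-x) ≤ 1 - x + x ^ 2 / 2 := by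
  have h1 := Real.quadratic_le_exp_of_nonneg hx
  have h2 : Real.exp (-x) * Real.exp x = 1 := by rw [← Real.exp_add]; simp
  have h3 := Real.exp_pos (-x)
  have h4 : 0 < 1 + x + x ^ 2 / 2 := by positivity
  have h5 : Real.exp (-x) * (1 + x + x ^ 2 / 2) ≤ 1 :=
    (mul_le_mul_of_nonneg_left h1 h3.le).trans h2.le
  have h6 : (1 - x + x ^ 2 / 2) * (1 + x + x ^ 2 / 2) = 1 + x ^ 4 / 4 := by ring
  have h7 : Real.exp (-x) * (1 + x + x ^ 2 / 2) ≤ (1 - x + x ^ 2 / 2) * (1 + x + x ^ 2 / 2) := by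
    rw [h6]
    have : 0 ≤ x ^ 4 := by positivity
    linarith
  exact le_of_mul_le_mul_right h7 h4

lemma E_half : E (1 / 2) ≤ 1 / 2 - 1 / 24 + 1 / 320 := by
  have h1 : E (1 / 2) ≤ ∫ v in (0 : ℝ)..(1 / 2), (1 - v ^ 2 + v ^ 4 / 2) := by
    unfold E
    refine intervalIntegral.integral_mono_on (by norm_num)
      ((by fun_prop : Continuous fun v : ℝ => Real.exp (-v ^ 2)).intervalIntegrable _ _)
      ((by fun_prop : Continuous fun v : ℝ => 1 - v ^ 2 + v ^ 4 / 2).intervalIntegrable _ _) ?_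
    intro v _
    have := exp_upper (sq_nonneg v)
    nlinarith [this]
  refine h1.trans (le_of_eq ?_)
  have hd : ∀ x ∈ uIcc (0 : ℝ) (1 / 2), HasDerivAt (fun v : ℝ => v - v ^ 3 / 3 + v ^ 5 / 10)
      (1 - x ^ 2 + x ^ 4 / 2) x := by
    intro x _
    have := ((hasDerivAt_id x).sub ((hasDerivAt_pow 3 x).div_const 3)).add
      ((hasDerivAt_pow 5 x).div_const 10)
    refine this.congr_deriv ?_
    simp only [Nat.cast_ofNat]
    ring
  rw [intervalIntegral.integral_eq_sub_of_hasDerivAt hd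
    ((by fun_prop : Continuous fun v : ℝ => 1 - v ^ 2 + v ^ 4 / 2).intervalIntegrable _ _)]
  norm_num

lemma g_half : E (1 / 2) + Real.exp (-(1 / 2) ^ 2) ≤ 5 / 4 := by
  have h1 := E_half
  have h2 : Real.exp (-(1 / 2) ^ 2) ≤ 1 - (1 / 2) ^ 2 + ((1 / 2) ^ 2) ^ 2 / 2 :=
    exp_upper (by positivity)
  norm_num at h2 h1 ⊢
  linarith

lemma g_le {z : ℝ} (hz : 0 ≤ z) : E z + Real.exp (-z ^ 2) ≤ 5 / 4 := by
  have hd : ∀ x : ℝ, HasDerivAt (fun z => E z + Real.exp (-z ^ 2))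
      ((1 - 2 * x) * Real.exp (-x ^ 2)) x := by
    intro x
    refine ((E_deriv x).add (expneg_deriv x)).congr_deriv ?_
    ring
  have hc : Continuous fun z => E z + Real.exp (-z ^ 2) :=
    continuous_iff_continuousAt.2 fun x => (hd x).continuousAt
  refine le_trans ?_ g_half
  rcases le_total z (1 / 2) with h | h
  · have hm : MonotoneOn (fun z => E z + Real.exp (-z ^ 2)) (Icc 0 (1 / 2)) := by
      refine monotoneOn_of_deriv_nonneg (convex_Icc _ _) hc.continuousOn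
        (fun x _ => (hd x).differentiableAt.differentiableWithinAt) (fun x hx => ?_)
      rw [interior_Icc] at hx
      rw [(hd x).deriv]
      have : 0 ≤ 1 - 2 * x := by linarith [hx.2]
      positivity
    exact hm ⟨hz, h⟩ ⟨by norm_num, le_rfl⟩ h
  · have hm : AntitoneOn (fun z => E z + Real.exp (-z ^ 2)) (Ici (1 / 2)) := by
      refine antitoneOn_of_deriv_nonpos (convex_Ici _) hc.continuousOn
        (fun x _ => (hd x).differentiableAt.differentiableWithinAt) (fun x hx => ?_)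
      rw [interior_Ici] at hx
      rw [(hd x).deriv]
      have : 1 - 2 * x ≤ 0 := by linarith [show (1 / 2 : ℝ) < x from hx]
      exact mul_nonpos_of_nonpos_of_nonneg this (Real.exp_pos _).le
    exact hm (mem_Ici.2 le_rfl) h h

/-- the numerator integral -/
lemma K_eq (z : ℝ) : ∫ x in (0 : ℝ)..z, (1 + x) * Real.exp (-(z - x) ^ 2)
    = (1 + z) * E z - (1 - Real.exp (-z ^ 2)) / 2 := by
  have h1 : ∫ x in (0 : ℝ)..z, (1 + x) * Real.exp (-(z - x) ^ 2)
      = ∫ v in (0 : ℝ)..z, (1 + z - v) * Real.exp (-v ^ 2) := by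
    have := intervalIntegral.integral_comp_sub_left (a := 0) (b := z)
      (fun v => (1 + z - v) * Real.exp (-v ^ 2)) z
    rw [sub_self, sub_zero] at this
    rw [← this]
    refine intervalIntegral.integral_congr fun x _ => ?_
    congr 1; ring
  have hc1 : Continuous fun v : ℝ => Real.exp (-v ^ 2) := by fun_prop
  have h2 : ∫ v in (0 : ℝ)..z, (1 + z - v) * Real.exp (-v ^ 2)
      = ∫ v in (0 : ℝ)..z, ((1 + z) * Real.exp (-v ^ 2) - v * Real.exp (-v ^ 2)) := by
    refine intervalIntegral.integral_congr fun x _ => ?_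
    ring
  have h3 : ∫ v in (0 : ℝ)..z, v * Real.exp (-v ^ 2) = (1 - Real.exp (-z ^ 2)) / 2 := by
    have hd : ∀ x ∈ uIcc (0 : ℝ) z, HasDerivAt (fun v : ℝ => -Real.exp (-v ^ 2) / 2)
        (x * Real.exp (-x ^ 2)) x := by
      intro x _
      refine ((expneg_deriv x).neg.div_const 2).congr_deriv ?_
      ring
    rw [intervalIntegral.integral_eq_sub_of_hasDerivAt hd
      ((by fun_prop : Continuous fun v : ℝ => v * Real.exp (-v ^ 2)).intervalIntegrable _ _)]
    simp; ring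
  rw [h1, h2, intervalIntegral.integral_sub
    ((by fun_prop : Continuous fun v : ℝ => (1 + z) * Real.exp (-v ^ 2)).intervalIntegrable _ _)
    ((by fun_prop : Continuous fun v : ℝ => v * Real.exp (-v ^ 2)).intervalIntegrable _ _),
    intervalIntegral.integral_const_mul, h3]
  rfl

lemma K_le {z : ℝ} (hz : 0 ≤ z) :
    ∫ x in (0 : ℝ)..z, (1 + x) * Real.exp (-(z - x) ^ 2) ≤ 5 / 4 * z := by
  rw [K_eq]
  set h : ℝ → ℝ := fun z => 5 / 4 * z - ((1 + z) * E z - (1 - Real.exp (-z ^ 2)) / 2) with hh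
  have hd : ∀ x : ℝ, HasDerivAt h (5 / 4 - (E x + Real.exp (-x ^ 2))) x := by
    intro x
    have h1 := ((hasDerivAt_id x).const_mul (5 / 4 : ℝ)).sub
      ((((hasDerivAt_id x).const_add 1).mul (E_deriv x)).sub
        (((expneg_deriv x).const_sub 1).div_const 2))
    refine h1.congr_deriv ?_
    simp only [id]
    ring
  have hm : MonotoneOn h (Ici 0) := by
    refine monotoneOn_of_deriv_nonneg (convex_Ici _)
      (continuous_iff_continuousAt.2 fun x => (hd x).continuousAt).continuousOn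
      (fun x _ => (hd x).differentiableAt.differentiableWithinAt) (fun x hx => ?_)
    rw [interior_Ici] at hx
    rw [(hd x).deriv]
    have := g_le (le_of_lt hx)
    linarith
  have h0 : h 0 = 0 := by simp [hh, E]
  have := hm (mem_Ici.2 le_rfl) (mem_Ici.2 hz) hz
  rw [h0] at this
  simp only [hh] at this
  linarith

/-- one half of the numerator -/
lemma half_num {z : ℝ} (hz : 0 < z) :
    (μ0.prod μ0) {p : ℝ × ℝ | p.1 ≤ z ∧ 2 * z - p.1 ≤ p.2}
      ≤ ENNReal.ofReal (Real.exp (-(z + z ^ 2 / 2)) ^ 2 * (5 / 4 * z)) := by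
  have hms : MeasurableSet {p : ℝ × ℝ | p.1 ≤ z ∧ 2 * z - p.1 ≤ p.2} :=
    (measurableSet_le measurable_fst measurable_const).inter
      (measurableSet_le (by fun_prop) measurable_snd)
  rw [Measure.prod_apply hms]
  have h1 : ∀ x, μ0 (Prod.mk x ⁻¹' {p : ℝ × ℝ | p.1 ≤ z ∧ 2 * z - p.1 ≤ p.2})
      = (Iic z).indicator (fun x => ENNReal.ofReal
        (Real.exp (-((2 * z - x) + (2 * z - x) ^ 2 / 2)))) x := by
    intro x
    by_cases hx : x ≤ z
    · rw [indicator_of_mem (mem_Iic.2 hx), ← μ0_Ici (by linarith)]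
      congr 1
      ext y; simp [hx]
    · rw [indicator_of_notMem (by simpa using hx)]
      have : Prod.mk x ⁻¹' {p : ℝ × ℝ | p.1 ≤ z ∧ 2 * z - p.1 ≤ p.2} = ∅ := by
        ext y; simp [hx]
      rw [this, measure_empty]
  simp only [h1]
  rw [lintegral_indicator measurableSet_Iic]
  unfold μ0
  rw [restrict_withDensity measurableSet_Iic, Measure.restrict_restrict measurableSet_Iic,
    inter_comm, Ioi_inter_Iic, lintegral_withDensity_eq_lintegral_mul _
      (by unfold F; fun_prop) (by fun_prop)]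
  have h2 : ∫⁻ x in Ioc 0 z, ((fun x => ENNReal.ofReal (F x)) * fun x => ENNReal.ofReal
        (Real.exp (-((2 * z - x) + (2 * z - x) ^ 2 / 2)))) x
      = ∫⁻ x in Ioc 0 z, ENNReal.ofReal (Real.exp (-(z + z ^ 2 / 2)) ^ 2 *
        ((1 + x) * Real.exp (-(z - x) ^ 2))) := by
    refine setLIntegral_congr_fun measurableSet_Ioc fun x hx => ?_
    simp only [Pi.mul_apply]
    rw [← ENNReal.ofReal_mul (F_nonneg hx.1.le)]
    congr 1
    unfold F
    have e : Real.exp (-(x + x ^ 2 / 2)) * Real.exp (-((2 * z - x) + (2 * z - x) ^ 2 / 2))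
        = Real.exp (-(z + z ^ 2 / 2)) ^ 2 * Real.exp (-(z - x) ^ 2) := by
      rw [sq (Real.exp _), ← Real.exp_add, ← Real.exp_add, ← Real.exp_add]
      congr 1; ring
    linear_combination (1 + x) * e
  rw [h2, ← ofReal_integral_eq_lintegral_ofReal]
  · apply ENNReal.ofReal_le_ofReal
    rw [integral_const_mul, ← intervalIntegral.integral_of_le hz.le]
    exact mul_le_mul_of_nonneg_left (K_le hz.le) (by positivity)
  · exact ((by fun_prop : Continuous fun x : ℝ => Real.exp (-(z + z ^ 2 / 2)) ^ 2 *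
        ((1 + x) * Real.exp (-(z - x) ^ 2))).integrableOn_Icc (a := 0) (b := z)).mono_set
        Ioc_subset_Icc_self
  · filter_upwards [ae_restrict_mem measurableSet_Ioc] with x hx
    have := hx.1
    simp only [Pi.zero_apply]
    positivity

lemma R_le {z : ℝ} (hz : 0 < z) : R μ0 z ≤ 5 / 2 * z := by
  unfold R
  rw [den_eq, G0 hz.le, div_le_iff₀ (by positivity)]
  have h1 := half_num hz
  have h2 : (μ0.prod μ0) {p : ℝ × ℝ | 2 * z ≤ p.1 + p.2 ∧ min p.1 p.2 ≤ z}
      ≤ ENNReal.ofReal (2 * (Real.exp (-(z + z ^ 2 / 2)) ^ 2 * (5 / 4 * z))) := by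
    have hsub : {p : ℝ × ℝ | 2 * z ≤ p.1 + p.2 ∧ min p.1 p.2 ≤ z}
        ⊆ {p : ℝ × ℝ | p.1 ≤ z ∧ 2 * z - p.1 ≤ p.2} ∪
          Prod.swap ⁻¹' {p : ℝ × ℝ | p.1 ≤ z ∧ 2 * z - p.1 ≤ p.2} := by
      rintro p ⟨hp1, hp2⟩
      rcases min_le_iff.1 hp2 with h | h
      · left; exact ⟨h, by linarith⟩
      · right; exact ⟨h, by simp only [Prod.fst_swap, Prod.snd_swap]; linarith⟩
    have hms : MeasurableSet {p : ℝ × ℝ | p.1 ≤ z ∧ 2 * z - p.1 ≤ p.2} :=
      (measurableSet_le measurable_fst measurable_const).inter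
        (measurableSet_le (by fun_prop) measurable_snd)
    have hswap : (μ0.prod μ0) (Prod.swap ⁻¹' {p : ℝ × ℝ | p.1 ≤ z ∧ 2 * z - p.1 ≤ p.2})
        = (μ0.prod μ0) {p : ℝ × ℝ | p.1 ≤ z ∧ 2 * z - p.1 ≤ p.2} := by
      rw [← Measure.map_apply measurable_swap hms, Measure.prod_swap]
    calc _ ≤ _ := measure_mono hsub
      _ ≤ _ := measure_union_le _ _
      _ ≤ ENNReal.ofReal (Real.exp (-(z + z ^ 2 / 2)) ^ 2 * (5 / 4 * z))
          + ENNReal.ofReal (Real.exp (-(z + z ^ 2 / 2)) ^ 2 * (5 / 4 * z)) := by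
          rw [hswap]; exact add_le_add h1 h1
      _ = _ := by rw [← ENNReal.ofReal_add (by positivity) (by positivity)]; congr 1; ring
  have h3 := ENNReal.toReal_le_of_le_ofReal (by positivity) h2
  rw [measureReal_def]
  linarith

/-! median and mean -/

lemma med_gt : 1 / 2 < med μ0 ∧ med μ0 + med μ0 ^ 2 / 2 = Real.log 2 := by
  obtain ⟨hpos, hmed⟩ := med_spec μ0_adm
  have hI : ∀ t : ℝ, 0 ≤ t → μ0.real (Iic t) = 1 - Real.exp (-(t + t ^ 2 / 2)) := by
    intro t ht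
    have h1 : μ0.real (Ioi t) = Real.exp (-(t + t ^ 2 / 2)) := by
      rw [measureReal_def, μ0_Ioi ht, ENNReal.toReal_ofReal (Real.exp_pos _).le]
    rw [← h1, ← compl_Ioi, measureReal_compl measurableSet_Ioi]; simp
  have h2 : med μ0 + med μ0 ^ 2 / 2 = Real.log 2 := by
    rw [hI _ hpos.le] at hmed
    have h3 : Real.exp (-(med μ0 + med μ0 ^ 2 / 2)) = 1 / 2 := by linarith
    have h4 := congrArg Real.log h3
    rw [Real.log_exp, one_div, Real.log_inv] at h4
    linarith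
  refine ⟨?_, h2⟩
  by_contra hcon
  push Not at hcon
  have h3 := Real.log_two_gt_d9
  nlinarith

lemma sq_int : ∫⁻ x, ENNReal.ofReal ((1 + x) ^ 2 / 4) ∂μ0 = ENNReal.ofReal (3 / 4) := by
  unfold μ0
  rw [lintegral_withDensity_eq_lintegral_mul _ (by unfold F; fun_prop) (by fun_prop)]
  have h2 : ∫⁻ x in Ioi (0 : ℝ), ((fun x => ENNReal.ofReal (F x)) *
      fun x => ENNReal.ofReal ((1 + x) ^ 2 / 4)) x
      = ∫⁻ x in Ioi (0 : ℝ), ENNReal.ofReal (F x * ((1 + x) ^ 2 / 4)) := by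
    refine setLIntegral_congr_fun measurableSet_Ioi fun x hx => ?_
    simp only [Pi.mul_apply]
    rw [← ENNReal.ofReal_mul (F_nonneg (le_of_lt hx))]
  have hd : ∀ x ∈ Ici (0 : ℝ), HasDerivAt
      (fun x : ℝ => -(((1 + x) ^ 2 + 2) * Real.exp (-(x + x ^ 2 / 2)) / 4))
      (F x * ((1 + x) ^ 2 / 4)) x := by
    intro x _
    have h1 : HasDerivAt (fun x : ℝ => (1 + x) ^ 2 + 2) (2 * (1 + x)) x := by
      have := (((hasDerivAt_id x).const_add 1).pow 2).add_const 2
      refine this.congr_deriv ?_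
      simp
    have h3 := (h1.mul (hasDeriv_tail x)).div_const 4
    have h4 : HasDerivAt (fun x : ℝ => -(((1 + x) ^ 2 + 2) * Real.exp (-(x + x ^ 2 / 2)) / 4))
        ((2 * (1 + x) * -Real.exp (-(x + x ^ 2 / 2)) + ((1 + x) ^ 2 + 2) * F x) / 4) x := by
      refine h3.congr_of_eventuallyEq (Eventually.of_forall fun y => ?_)
      simp only [Pi.mul_apply]; ring
    refine h4.congr_deriv ?_
    unfold F; ring
  have hl : Tendsto (fun x : ℝ => -(((1 + x) ^ 2 + 2) * Real.exp (-(x + x ^ 2 / 2)) / 4)) atTop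
      (𝓝 0) := by
    have hp : Tendsto (fun x : ℝ => (x ^ 2 * Real.exp (-x) + 2 * (x ^ 1 * Real.exp (-x))
        + 3 * Real.exp (-x)) / 4) atTop (𝓝 0) := by
      have a := Real.tendsto_pow_mul_exp_neg_atTop_nhds_zero 2
      have b := Real.tendsto_pow_mul_exp_neg_atTop_nhds_zero 1
      have c := Real.tendsto_exp_neg_atTop_nhds_zero
      have := ((a.add (b.const_mul 2)).add (c.const_mul 3)).div_const 4
      simpa using this
    rw [show (0 : ℝ) = -0 by simp]
    refine Tendsto.neg (squeeze_zero' ?_ ?_ hp)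
    · filter_upwards with x
      positivity
    · filter_upwards [eventually_ge_atTop 0] with x hx
      have h1 : Real.exp (-(x + x ^ 2 / 2)) ≤ Real.exp (-x) := Real.exp_le_exp.2 (by nlinarith)
      have h2 : ((1 + x) ^ 2 + 2) * Real.exp (-(x + x ^ 2 / 2))
          ≤ ((1 + x) ^ 2 + 2) * Real.exp (-x) := mul_le_mul_of_nonneg_left h1 (by positivity)
      rw [pow_one]
      linarith
  have hnn : ∀ x ∈ Ioi (0 : ℝ), 0 ≤ F x * ((1 + x) ^ 2 / 4) := fun x hx =>
    mul_nonneg (F_nonneg (le_of_lt hx)) (by positivity)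
  rw [h2, ← ofReal_integral_eq_lintegral_ofReal
    (integrableOn_Ioi_deriv_of_nonneg' hd hnn hl)
    ((ae_restrict_mem measurableSet_Ioi).mono hnn),
    integral_Ioi_of_hasDerivAt_of_nonneg' hd hnn hl]
  congr 1
  simp; norm_num

lemma pos_ae : ∀ᵐ x ∂μ0, 0 < x := by
  rw [ae_iff]
  have : {a : ℝ | ¬0 < a} = Iic 0 := by ext; simp
  rw [this]; exact μ0_Iic0

lemma mean_fin : ∫⁻ x, ‖x‖ₑ ∂μ0 ≤ ENNReal.ofReal (3 / 4) := by
  rw [← sq_int]
  refine lintegral_mono_ae ?_
  filter_upwards [pos_ae] with x hx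
  rw [← ofReal_norm, Real.norm_of_nonneg hx.le]
  apply ENNReal.ofReal_le_ofReal
  nlinarith [sq_nonneg (1 - x)]

lemma id_int : Integrable (fun x : ℝ => x) μ0 :=
  ⟨by fun_prop, lt_of_le_of_lt mean_fin ENNReal.ofReal_lt_top⟩

lemma mean_le : ∫ x, x ∂μ0 ≤ 3 / 4 := by
  have h1 : ∫ x, x ∂μ0 ≤ ∫ x, ‖x‖ ∂μ0 :=
    integral_mono_ae id_int id_int.norm (Eventually.of_forall fun x => le_abs_self x)
  refine h1.trans ?_
  rw [integral_norm_eq_lintegral_enorm (by fun_prop)]
  exact ENNReal.toReal_le_of_le_ofReal (by norm_num) mean_fin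

lemma mean_pos {μ : Measure ℝ} (h : Adm μ) (hi : Integrable (fun x : ℝ => x) μ) :
    0 < ∫ x, x ∂μ := by
  have := h.prob
  have hnn : 0 ≤ᵐ[μ] fun x : ℝ => x := by
    have : ∀ᵐ x ∂μ, ¬ x < 0 := by
      rw [ae_iff]; simpa [Iio] using h.nonneg
    filter_upwards [this] with x hx
    exact not_lt.1 hx
  have h1 := mul_meas_ge_le_integral_of_nonneg hnn hi 1
  have h2 := G_pos h 1
  have h3 : μ.real {x | (1 : ℝ) ≤ x} = μ.real (Ici 1) := rfl
  rw [h3] at h1
  linarith

/-- **Complete answer to Q1 and Q2 of MP_966169.**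
Q1: the proposed inequality with the constant `2 log 2` is false, but it holds with the constant
`1/6`. Q2: the proposed inequality with the constant `2` is false, but it holds with the constant
`1/12`. The same law `P(X ≥ t) = exp(-t-t²/2)` refutes both. -/
theorem result :
    -- the counterexample, for both questions simultaneously
    (∃ μ : Measure ℝ, Adm μ ∧ Integrable (fun x : ℝ => x) μ ∧
      (∀ t : ℝ, 0 ≤ t → μ.real (Ici t) = Real.exp (-(t + t ^ 2 / 2))) ∧
      (∀ z : ℝ, 0 < z → R μ z < (2 * Real.log 2) * z / med μ) ∧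
      (∀ z : ℝ, 0 < z → R μ z < 2 * z / ∫ x, x ∂μ)) ∧
    -- Q1, statement false
    (¬ ∀ μ : Measure ℝ, Adm μ → ∃ z : ℝ, 0 < z ∧ (2 * Real.log 2) * z / med μ ≤ R μ z) ∧
    -- Q1, a constant exists
    (∀ μ : Measure ℝ, Adm μ → ∃ z : ℝ, 0 < z ∧ (1 / 6) * z / med μ ≤ R μ z) ∧
    -- Q2, statement false
    (¬ ∀ μ : Measure ℝ, Adm μ → Integrable (fun x : ℝ => x) μ →
      ∃ z : ℝ, 0 < z ∧ 2 * z / (∫ x, x ∂μ) ≤ R μ z) ∧
    -- Q2, a constant exists
    (∀ μ : Measure ℝ, Adm μ → Integrable (fun x : ℝ => x) μ →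
      ∃ z : ℝ, 0 < z ∧ (1 / 12) * z / (∫ x, x ∂μ) ≤ R μ z) := by
  have c1 : ∀ z : ℝ, 0 < z → R μ0 z < (2 * Real.log 2) * z / med μ0 := by
    intro z hz
    have h1 := R_le hz
    obtain ⟨h2, h3⟩ := med_gt
    have hm : 0 < med μ0 := by linarith
    refine lt_of_le_of_lt h1 ?_
    rw [lt_div_iff₀ hm, ← h3]
    have h4 : 0 < z * med μ0 := by positivity
    nlinarith
  have c2 : ∀ z : ℝ, 0 < z → R μ0 z < 2 * z / ∫ x, x ∂μ0 := by
    intro z hz
    have h1 := R_le hz
    have h2 := mean_le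
    have h3 := mean_pos μ0_adm id_int
    refine lt_of_le_of_lt h1 ?_
    rw [lt_div_iff₀ h3]
    nlinarith
  refine ⟨⟨μ0, μ0_adm, id_int, fun t ht => G0 ht, c1, c2⟩, ?_, ?_, ?_, ?_⟩
  · intro hall
    obtain ⟨z, hz, hz2⟩ := hall μ0 μ0_adm
    exact absurd hz2 (not_le.2 (c1 z hz))
  · intro μ hμ
    obtain ⟨z, hz, _, hz2⟩ := const_bound hμ (med_spec hμ).1 (G_med hμ)
    exact ⟨z, hz, hz2⟩
  · intro hall
    obtain ⟨z, hz, hz2⟩ := hall μ0 μ0_adm id_int
    exact absurd hz2 (not_le.2 (c2 z hz))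
  · intro μ hμ hi
    have := hμ.prob
    have hpos := mean_pos hμ hi
    have hnn : 0 ≤ᵐ[μ] fun x : ℝ => x := by
      have : ∀ᵐ x ∂μ, ¬ x < 0 := by
        rw [ae_iff]; simpa [Iio] using hμ.nonneg
      filter_upwards [this] with x hx
      exact not_lt.1 hx
    have hG : μ.real (Ici (2 * ∫ x, x ∂μ)) ≤ 1 / 2 := by
      have h1 := mul_meas_ge_le_integral_of_nonneg hnn hi (2 * ∫ x, x ∂μ)
      have h3 : μ.real {x | (2 * ∫ x, x ∂μ) ≤ x} = μ.real (Ici (2 * ∫ x, x ∂μ)) := rfl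
      rw [h3] at h1
      by_contra hcon
      push Not at hcon
      nlinarith
    obtain ⟨z, hz, _, hz2⟩ := const_bound hμ (by linarith) hG
    refine ⟨z, hz, le_trans (le_of_eq ?_) hz2⟩
    field_simp
    norm_num

end Pool.Agent.Results.MP_966169_pr.NotExtremal
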